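import Pool.Agent.H.MP_77ae5d_pr.D

namespace Pool.Agent.Results.MP_77ae5d_pr.No

open MeasureTheory

def Z2 : SimpleGraph (Fin 2 → ℤ) where
  Adj x y := ∑ i, |x i - y i| = 1
  symm := ⟨fun x y h => by simpa only [abs_sub_comm (y _)] using h⟩
  loopless := ⟨fun x h => by simp at h⟩

def Perc (S : Set (Fin 2 → ℤ)) (ω : Z2.edgeSet → Bool) : Prop :=
  ∃ K : (SimpleGraph.fromEdgeSet
    {e | ∃ h : e ∈ Z2.edgeSet, ω ⟨e, h⟩ = true ∧ ∀ v ∈ e, v ∈ S}).ConnectedComponent, K.supp.Infinite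

open Pool.Agent.H.MP_77ae5d_pr in
theorem result : ∃ μ : Measure (Z2.edgeSet → Bool), IsProbabilityMeasure μ ∧
    (∀ φ : Z2 ≃g Z2, μ.map (fun ω e => ω (φ.mapEdgeSet e)) = μ) ∧
    (∀ e, ∀ᵐ ω ∂μ, 0 < μ[{ω | ω e = true}.indicator fun _ => (1 : ℝ) | cylinderEvents {e}ᶜ] ω ∧
      μ[{ω | ω e = true}.indicator fun _ => (1 : ℝ) | cylinderEvents {e}ᶜ] ω < 1) ∧
    (∀ A B, MeasurableSet A → MeasurableSet B → IsUpperSet A → IsUpperSet B → μ A * μ B ≤ μ (A ∩ B)) ∧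
    (∀ᵐ ω ∂μ, Perc Set.univ ω) ∧ 0 < μ {ω | ¬ Perc {v | 0 ≤ v 1} ω} :=
  ⟨μ, μp, inv, fun e => energy μ e (tol e), fun _ _ => fkg, perc_ae,
    pos_iff_ne_zero.2 fun h => half (ae_iff.2 h)⟩

end Pool.Agent.Results.MP_77ae5d_pr.No
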